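import Pool.Agent.Helper69.RSW.Prob

/-! MODULE (D0) of the nesting theorem: abstract exploration. -/

namespace H82Nest
open Finset
open Pool.Agent.Helper69.RSW

/-- (D0) abstract exploration: `X` = explored data, `T a` = edges examined when `X = a` -/
theorem expl_gen {E ι : Type*} [DecidableEq E] (F : Finset E) (X : Finset E → ι) (T : ι → Finset E)
    (hX : ∀ ω ω' : Finset E, ω ⊆ F → ω' ⊆ F → ω ∩ T (X ω) = ω' ∩ T (X ω) → X ω' = X ω)
    {G : Finset E → Prop} (hG : Up G) {Bad : Finset E → Prop} {Y : ι → Prop}
    (hB : ∀ ω ⊆ F, Y (X ω) → Bad ω → ¬ G (ω ∪ (T (X ω) ∩ F))) :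
    P F (fun ω => Y (X ω) ∧ Bad ω) ≤ (1 - P F G) * P F (fun ω => Y (X ω)) := by
  classical
  have key : ∀ a : ι, P F (fun ω => X ω = a ∧ (Y (X ω) ∧ Bad ω)) ≤
      (1 - P F G) * P F (fun ω => X ω = a ∧ Y (X ω)) := by
    intro a
    by_cases hY : Y a
    · have h1 : P F (fun ω => X ω = a ∧ (Y (X ω) ∧ Bad ω)) ≤
          P F (fun ω => X (ω ∩ F) = a ∧ ¬ G ((ω ∩ F) ∪ (T a ∩ F))) := by
        apply P_mono
        rintro ω hω ⟨h2, h3, h4⟩
        have e : ω ∩ F = ω := inter_eq_left.2 hω
        rw [e]
        refine ⟨h2, ?_⟩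
        have := hB ω hω h3 h4
        rwa [h2] at this
      have hA : Dep (T a ∩ F) (fun ω => X (ω ∩ F) = a) := by
        intro S
        have e1 : S ∩ (T a ∩ F) ∩ F = S ∩ F ∩ T a := by
          ext x
          simp only [mem_inter]
          tauto
        simp only
        rw [e1]
        have e2 : S ∩ F ∩ T a = S ∩ F ∩ T a ∩ T a := by
          ext x
          simp only [mem_inter]
          tauto
        constructor
        · intro h
          have := hX (S ∩ F) (S ∩ F ∩ T a) inter_subset_right
            (inter_subset_left.trans inter_subset_right) (by rw [h]; exact e2)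
          rw [this, h]
        · intro h
          have := hX (S ∩ F ∩ T a) (S ∩ F) (inter_subset_left.trans inter_subset_right)
            inter_subset_right (by rw [h]; exact e2.symm)
          rw [this, h]
      have hD : Dep (F \ T a) (fun ω => ¬ G ((ω ∩ F) ∪ (T a ∩ F))) := by
        intro S
        have e1 : S ∩ (F \ T a) ∩ F ∪ T a ∩ F = S ∩ F ∪ T a ∩ F := by
          ext x
          simp only [mem_inter, mem_union, mem_sdiff]
          tauto
        simp only
        rw [e1]
      have h5 := P_indep (F := F) (G := T a ∩ F) (H := F \ T a) inter_subset_right sdiff_subset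
        (by
          rw [disjoint_left]
          intro x hx hx'
          rw [mem_inter] at hx
          rw [mem_sdiff] at hx'
          exact hx'.2 hx.1) hA hD
      have h6 : P F (fun ω => X (ω ∩ F) = a) = P F (fun ω => X ω = a ∧ Y (X ω)) := by
        apply P_congr
        intro ω hω
        rw [inter_eq_left.2 hω]
        constructor
        · intro h
          exact ⟨h, by rw [h]; exact hY⟩
        · intro h
          exact h.1
      have h7 : P F (fun ω => ¬ G ((ω ∩ F) ∪ (T a ∩ F))) ≤ 1 - P F G := by
        have h8 := P_compl F G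
        have h9 : P F (fun ω => ¬ G ((ω ∩ F) ∪ (T a ∩ F))) ≤ P F (fun ω => ¬ G ω) := by
          apply P_mono
          intro ω hω h h'
          apply h
          rw [inter_eq_left.2 hω]
          exact hG _ _ subset_union_left h'
        linarith
      calc P F (fun ω => X ω = a ∧ (Y (X ω) ∧ Bad ω))
          ≤ P F (fun ω => X (ω ∩ F) = a ∧ ¬ G ((ω ∩ F) ∪ (T a ∩ F))) := h1
        _ = P F (fun ω => X (ω ∩ F) = a) * P F (fun ω => ¬ G ((ω ∩ F) ∪ (T a ∩ F))) := h5
        _ ≤ P F (fun ω => X ω = a ∧ Y (X ω)) * (1 - P F G) := by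
            rw [h6]
            exact mul_le_mul_of_nonneg_left h7 (P_nonneg _ _)
        _ = _ := mul_comm _ _
    · have h1 : P F (fun ω => X ω = a ∧ (Y (X ω) ∧ Bad ω)) = 0 := by
        rw [← P_false F]
        apply P_congr
        intro ω _
        constructor
        · rintro ⟨h2, h3, _⟩
          rw [h2] at h3
          exact hY h3
        · intro h
          exact h.elim
      rw [h1]
      exact mul_nonneg (by linarith [P_le_one F G]) (P_nonneg _ _)
  set I := F.powerset.image X with hI
  have hmem : ∀ S ⊆ F, X S ∈ I := fun S hS => mem_image_of_mem X (mem_powerset.2 hS)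
  rw [P_sum F X I (fun ω => Y (X ω) ∧ Bad ω) (fun S hS _ => hmem S hS),
    P_sum F X I (fun ω => Y (X ω)) (fun S hS _ => hmem S hS), mul_sum]
  exact sum_le_sum fun a _ => key a

end H82Nest
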