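import Pool.Agent.Helper82.Nest.Defs
import Pool.Agent.Helper12.Nest.ExplGen

/-! MODULE (D) of the nesting theorem: exploration on the cylinder. -/

set_option warn.classDefReducibility false

namespace H82Nest
open Finset H47Perc Cyl H92Link
open Pool.Agent.Helper69.RSW (P P_mono P_congr Dep Up harris P_nonneg P_indep P_or_le P_le_one)

/-! ### generalities on `Reach` -/

theorem ex_mem {O : Set (Sym2 (ℤ × ℤ))} {S A : Set Pt} {k : ℕ} {p : Pt} (h : Reach O S A k p) : p ∈ S := by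
  cases h with
  | start _ h => exact h
  | opn _ _ _ h => exact h
  | cls _ _ _ _ _ _ _ h => exact h
  | dn _ _ h => exact h
  | up _ _ h => exact h

/-- the edge `e` touches the set `A` -/
def Tch (A : Set Pt) (e : Sym2 (ℤ × ℤ)) : Prop :=
  ∃ u v : ℤ × ℤ, e = s(u, v) ∧ ((u, false) ∈ A ∨ ∃ f, (f, true) ∈ A ∧ Cor u f ∧ Cor v f)

/-- points at distance at most `j` -/
def BlE (O : Set (Sym2 (ℤ × ℤ))) (S A : Set Pt) (j : ℕ) : Set Pt := {p | ∃ a ≤ j, Reach O S A a p}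

theorem ex_local {O O' : Set (Sym2 (ℤ × ℤ))} {S A : Set Pt} {j : ℕ}
    (h : ∀ u v, lattice.Adj u v → Tch (BlE O S A j) s(u, v) → (s(u, v) ∈ O ↔ s(u, v) ∈ O')) {k : ℕ} {p : Pt}
    (hk : k ≤ j) : Reach O S A k p ↔ Reach O' S A k p := by
  constructor
  · intro hr
    induction hr with
    | start h1 h2 => exact Reach.start h1 h2
    | @opn k u v h1 h2 h3 h4 ih =>
      exact Reach.opn (ih hk) h2 ((h u v h2 ⟨u, v, rfl, Or.inl ⟨k, hk, h1⟩⟩).1 h3) h4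
    | @cls k f g u v h1 h2 h3 h4 h5 h6 h7 h8 ih =>
      exact Reach.cls (ih hk) h2 (fun h9 => h3 ((h u v h2 ⟨u, v, rfl, Or.inr ⟨f, ⟨k, hk, h1⟩, h4, h5⟩⟩).2 h9))
        h4 h5 h6 h7 h8
    | dn h1 h2 h3 ih => exact Reach.dn (ih (by omega)) h2 h3
    | up h1 h2 h3 ih => exact Reach.up (ih (by omega)) h2 h3
  · intro hr
    induction hr with
    | start h1 h2 => exact Reach.start h1 h2
    | @opn k u v h1 h2 h3 h4 ih =>
      exact Reach.opn (ih hk) h2 ((h u v h2 ⟨u, v, rfl, Or.inl ⟨k, hk, ih hk⟩⟩).2 h3) h4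
    | @cls k f g u v h1 h2 h3 h4 h5 h6 h7 h8 ih =>
      exact Reach.cls (ih hk) h2 (fun h9 => h3 ((h u v h2 ⟨u, v, rfl, Or.inr ⟨f, ⟨k, hk, ih hk⟩, h4, h5⟩⟩).1 h9))
        h4 h5 h6 h7 h8
    | dn h1 h2 h3 ih => exact Reach.dn (ih (by omega)) h2 h3
    | up h1 h2 h3 ih => exact Reach.up (ih (by omega)) h2 h3

/-! ### translations -/

theorem ex_cor_per {n : ℕ} (c : ℤ) {u f : ℤ × ℤ} (h : Cor u f) : Cor (per n c u) (per n c f) := by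
  unfold Cor at *
  rw [per_apply, per_apply]
  simp only
  omega

theorem ex_lft_per {n : ℕ} (hn : 1 ≤ n) {ω : Finset (Sym2 (ℤ × ℤ))} (c : ℤ) {u v : ℤ × ℤ} :
    s(per n c u, per n c v) ∈ lft n ω ↔ s(u, v) ∈ lft n ω := by
  unfold lft
  simp only [Set.mem_ofPred_eq]
  rw [← emb_mk, edge_emb (per_iso n c), rep_per hn]

theorem ex_SS_per {n : ℕ} {M : ℤ} (c : ℤ) {z : ℤ × ℤ} {b : Bool} (h : (z, b) ∈ SS M) :
    (per n c z, b) ∈ SS M := by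
  unfold SS at *
  rw [per_apply]
  simp only [Set.mem_ofPred_eq] at *
  refine ⟨fun hb => ?_, fun hb => ?_⟩
  · have := h.1 hb
    omega
  · have := h.2 hb
    omega

theorem ex_shift {n : ℕ} {ω : Finset (Sym2 (ℤ × ℤ))} {M b c : ℤ} {k : ℕ} {p : Pt}
    (h : Reach (lft n ω) (SS M) (Lf n b) k p) :
    Reach (lft n ω) (SS M) (Lf n (b + 2 * c)) k p := by
  induction h with
  | @start p h1 h2 =>
    refine Reach.start ?_ h2
    obtain ⟨l, hl⟩ := h1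
    refine ⟨l - c, ?_⟩
    rw [hl]
    congr 2
    ring_nf
  | opn _ h2 h3 h4 ih => exact Reach.opn ih h2 h3 h4
  | cls _ h2 h3 h4 h5 h6 h7 h8 ih => exact Reach.cls ih h2 h3 h4 h5 h6 h7 h8
  | dn _ h2 h3 ih => exact Reach.dn ih h2 h3
  | up _ h2 h3 ih => exact Reach.up ih h2 h3

theorem ex_per {n : ℕ} (hn : 1 ≤ n) {ω : Finset (Sym2 (ℤ × ℤ))} {M b : ℤ} (c : ℤ) {k : ℕ} {p : Pt}
    (h : Reach (lft n ω) (SS M) (Lf n b) k p) :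
    Reach (lft n ω) (SS M) (Lf n (b + c)) k (per n c p.1, p.2) := by
  induction h with
  | @start p h1 h2 =>
    refine Reach.start ?_ (ex_SS_per c h2)
    obtain ⟨l, hl⟩ := h1
    refine ⟨l, ?_⟩
    rw [hl]
    simp only
    rw [per_per]
    congr 2
    ring_nf
  | @opn k u v h1 h2 h3 h4 ih =>
    exact Reach.opn ih ((per_iso n c u v).2 h2) ((ex_lft_per hn c).2 h3) (ex_SS_per c h4)
  | @cls k f g u v h1 h2 h3 h4 h5 h6 h7 h8 ih =>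
    exact Reach.cls ih ((per_iso n c u v).2 h2) (fun h => h3 ((ex_lft_per hn c).1 h))
      (ex_cor_per c h4) (ex_cor_per c h5) (ex_cor_per c h6) (ex_cor_per c h7) (ex_SS_per c h8)
  | @dn k u f h1 h2 h3 ih => exact Reach.dn ih (ex_cor_per c h2) (ex_SS_per c h3)
  | @up k u f h1 h2 h3 ih => exact Reach.up ih (ex_cor_per c h2) (ex_SS_per c h3)

/-- the even ball -/
def VB (n N j : ℕ) (ω : Finset (Sym2 (ℤ × ℤ))) : Set Pt := BlE (lft n ω) (SS (N + 1)) (Lf n 0) j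
/-- the odd ball -/
def VO (n N j : ℕ) (ω : Finset (Sym2 (ℤ × ℤ))) : Set Pt := BlE (lft n ω) (SS (N + 1)) (Lf n 1) j

theorem ex_VB_even {n N j : ℕ} (hn : 1 ≤ n) {ω : Finset (Sym2 (ℤ × ℤ))} (l : ℤ) {z : ℤ × ℤ} {b : Bool}
    (h : (z, b) ∈ VB n N j ω) : (per n (2 * l) z, b) ∈ VB n N j ω := by
  obtain ⟨a, ha, h1⟩ := h
  refine ⟨a, ha, ?_⟩
  have h2 := ex_shift (c := -l) (ex_per hn (2 * l) h1)
  rw [show (0 : ℤ) + 2 * l + 2 * (-l) = 0 by ring] at h2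
  exact h2

theorem ex_VB_odd {n N j : ℕ} (hn : 1 ≤ n) {ω : Finset (Sym2 (ℤ × ℤ))} (l : ℤ) {z : ℤ × ℤ} {b : Bool}
    (h : (z, b) ∈ VB n N j ω) : (per n (2 * l + 1) z, b) ∈ VO n N j ω := by
  obtain ⟨a, ha, h1⟩ := h
  refine ⟨a, ha, ?_⟩
  have h2 := ex_shift (c := -l) (ex_per hn (2 * l + 1) h1)
  rw [show (0 : ℤ) + (2 * l + 1) + 2 * (-l) = 1 by ring] at h2
  exact h2

theorem ex_VO_iff {n N j : ℕ} (hn : 1 ≤ n) {ω : Finset (Sym2 (ℤ × ℤ))} {z : ℤ × ℤ} {b : Bool} :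
    (z, b) ∈ VO n N j ω ↔ (per n (-1) z, b) ∈ VB n N j ω := by
  constructor
  · rintro ⟨a, ha, h1⟩
    refine ⟨a, ha, ?_⟩
    have h2 := ex_per hn (-1) h1
    rw [show (1 : ℤ) + -1 = 0 by ring] at h2
    exact h2
  · intro h
    have h2 := ex_VB_odd hn 0 h
    rw [per_per, show (2 * 0 + 1 + -1 : ℤ) = 0 by ring, per_zero] at h2
    exact h2

/-! ### the edges touching a set -/

open Classical in
/-- the edges of the fundamental domain, one of whose lifts touches the set `A` -/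
noncomputable def TT (n N : ℕ) (A : Set Pt) : Finset (Sym2 (ℤ × ℤ)) :=
  (cylE n (-(N:ℤ)) N).filter (fun e => ∃ k : ℤ, Tch A (emb (per n k) e))

theorem ex_emb_rep (n : ℕ) (e : Sym2 (ℤ × ℤ)) : ∃ k : ℤ, emb (per n k) (rep n e) = e := by
  refine ⟨xm e / n, ?_⟩
  unfold rep
  rw [emb_per_per, add_neg_cancel, emb_per_zero]

open Classical in
theorem ex_TT_mem {n N : ℕ} {A : Set Pt} {e : Sym2 (ℤ × ℤ)} (h : rep n e ∈ cylE n (-(N:ℤ)) N) (ht : Tch A e) :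
    rep n e ∈ TT n N A := by
  unfold TT
  rw [mem_filter]
  refine ⟨h, ?_⟩
  obtain ⟨k, hk⟩ := ex_emb_rep n e
  exact ⟨k, by rw [hk]; exact ht⟩

theorem ex_touch {n N : ℕ} {A : Set Pt} {ω ω' : Finset (Sym2 (ℤ × ℤ))} (hω : ω ⊆ cylE n (-(N:ℤ)) N)
    (hω' : ω' ⊆ cylE n (-(N:ℤ)) N) (h : ω ∩ TT n N A = ω' ∩ TT n N A) {e : Sym2 (ℤ × ℤ)} (ht : Tch A e) :
    rep n e ∈ ω ↔ rep n e ∈ ω' := by
  constructor
  · intro h1
    have : rep n e ∈ ω ∩ TT n N A := mem_inter.2 ⟨h1, ex_TT_mem (hω h1) ht⟩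
    rw [h] at this
    exact (mem_inter.1 this).1
  · intro h1
    have : rep n e ∈ ω' ∩ TT n N A := mem_inter.2 ⟨h1, ex_TT_mem (hω' h1) ht⟩
    rw [← h] at this
    exact (mem_inter.1 this).1

theorem ex_VB_local {n N j : ℕ} {ω ω' : Finset (Sym2 (ℤ × ℤ))} (hω : ω ⊆ cylE n (-(N:ℤ)) N)
    (hω' : ω' ⊆ cylE n (-(N:ℤ)) N) (h : ω ∩ TT n N (VB n N j ω) = ω' ∩ TT n N (VB n N j ω)) :
    VB n N j ω' = VB n N j ω := by
  have key : ∀ {k : ℕ} {p : Pt}, k ≤ j → (Reach (lft n ω) (SS (N + 1)) (Lf n 0) k p ↔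
      Reach (lft n ω') (SS (N + 1)) (Lf n 0) k p) := by
    intro k p hk
    refine ex_local (j := j) ?_ hk
    intro u v huv ht
    unfold lft
    simp only [Set.mem_ofPred_eq]
    rw [ex_touch hω hω' h ht]
  ext p
  constructor
  · rintro ⟨a, ha, h1⟩
    exact ⟨a, ha, (key ha).2 h1⟩
  · rintro ⟨a, ha, h1⟩
    exact ⟨a, ha, (key ha).1 h1⟩

/-! ### the box -/

theorem ex_box {m n N : ℕ} (hm : 4 * m < n) (hN : 2 * n ≤ N) {ω : Finset (Sym2 (ℤ × ℤ))} {k : ℕ} {p : Pt}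
    (h : Reach (pw n (QB (2 * m)) ω : Set (Sym2 (ℤ × ℤ))) (AS ((0:ℕ):ℤ) ((2 * m : ℕ):ℤ)) (Sph ((0:ℕ):ℤ)) k p) :
    Reach (lft n ω) (SS (N + 1)) (Lf n 0) k p := by
  have hAS : ∀ q : Pt, q ∈ AS ((0:ℕ):ℤ) ((2 * m : ℕ):ℤ) → q ∈ SS ((N:ℤ) + 1) := by
    rintro ⟨z, b⟩ ⟨h1, h2⟩
    unfold SS
    simp only [Set.mem_ofPred_eq] at *
    constructor
    · intro hb
      have := (h1 hb).2
      rw [nrm_le, abs_le, abs_le] at this
      push_cast at this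
      omega
    · intro hb
      have h3 := (h2 hb (z.1, z.2) ⟨Or.inl rfl, Or.inl rfl⟩).2
      have h4 := (h2 hb (z.1 + 1, z.2 + 1) ⟨Or.inr rfl, Or.inr rfl⟩).2
      rw [nrm_le, abs_le, abs_le] at h3 h4
      push_cast at h3 h4
      omega
  have hQ : ∀ z : ℤ × ℤ, nrm z ≤ ((2 * m : ℕ):ℤ) → z ∈ QB (2 * m) := by
    intro z hz
    unfold QB
    rw [nrm_le, abs_le, abs_le] at hz
    rw [mem_box]
    exact ⟨hz.1.1, hz.1.2, hz.2.1, hz.2.2⟩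
  induction h with
  | @start p h1 h2 =>
    refine Reach.start ?_ (hAS _ h2)
    obtain ⟨z, b⟩ := p
    obtain ⟨h3, h4⟩ := h1
    simp only at h3 h4
    have h5 : nrm z ≤ 0 := by rw [h4]; simp
    rw [nrm_le, abs_nonpos_iff, abs_nonpos_iff] at h5
    refine ⟨0, ?_⟩
    rw [h3]
    congr 1
    rw [per_apply]
    ext
    · rw [h5.1]; simp
    · rw [h5.2]; simp
  | @opn k u v h1 h2 h3 h4 ih =>
    refine Reach.opn ih h2 ?_ (hAS _ h4)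
    rw [mem_coe, mem_pw] at h3
    refine ⟨?_, h3.2⟩
    rw [SimpleGraph.mem_edgeSet]
    exact h2
  | @cls k f g u v h1 h2 h3 h4 h5 h6 h7 h8 ih =>
    refine Reach.cls ih h2 ?_ h4 h5 h6 h7 (hAS _ h8)
    intro h9
    apply h3
    have hf := (ex_mem h1).2 rfl
    rw [mem_coe, mem_pw, mem_edgesIn]
    exact ⟨⟨hQ _ (hf u h4).2, hQ _ (hf v h5).2, h2⟩, h9.2⟩
  | dn _ h2 h3 ih => exact Reach.dn ih h2 (hAS _ h3)
  | up _ h2 h3 ih => exact Reach.up ih h2 (hAS _ h3)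

/-- there is always a path -/
theorem ex_nonempty {m : ℕ} (hm : 1 ≤ m) (O : Set (Sym2 (ℤ × ℤ))) :
    ∃ k : ℕ, ∃ v : ℤ × ℤ, nrm v = ((2 * m : ℕ):ℤ) ∧
      Reach O (AS ((0:ℕ):ℤ) ((2 * m : ℕ):ℤ)) (Sph ((0:ℕ):ℤ)) k (v, false) := by
  have hv : ∀ x : ℕ, x ≤ 2 * m → ∃ k : ℕ, Reach O (AS ((0:ℕ):ℤ) ((2 * m : ℕ):ℤ)) (Sph ((0:ℕ):ℤ)) k
      (((x:ℤ), 0), false) := by
    intro x
    induction x with
    | zero =>
      intro _
      refine ⟨0, Reach.start ⟨rfl, ?_⟩ ⟨fun _ => ?_, fun h => absurd h (by simp)⟩⟩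
      · unfold nrm; simp
      · unfold nrm; simp
    | succ x ih =>
      intro hx
      obtain ⟨k, hk⟩ := ih (by omega)
      have hz : ∀ z : ℤ × ℤ, 0 ≤ nrm z := fun z => by
        unfold nrm
        exact le_max_of_le_left (abs_nonneg _)
      have h1 : Reach O (AS ((0:ℕ):ℤ) ((2 * m : ℕ):ℤ)) (Sph ((0:ℕ):ℤ)) (k + 1) (((x:ℤ), 0), true) := by
        refine Reach.dn hk ⟨Or.inl rfl, Or.inl rfl⟩ ⟨fun h => absurd h (by simp), fun _ u hu => ?_⟩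
        refine ⟨by simpa using hz u, ?_⟩
        obtain ⟨h2, h3⟩ := hu
        simp only at h2 h3
        rw [nrm_le, abs_le, abs_le]
        push_cast
        omega
      refine ⟨k + 1 + 1, Reach.up h1 ⟨Or.inr (by push_cast; rfl), Or.inl rfl⟩
        ⟨fun _ => ⟨by simpa using hz _, ?_⟩, fun h => absurd h (by simp)⟩⟩
      rw [nrm_le, abs_le, abs_le]
      push_cast
      omega
  obtain ⟨k, hk⟩ := hv (2 * m) le_rfl
  refine ⟨k, _, ?_, hk⟩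
  unfold nrm
  simp

theorem ex_cc_mem {m : ℕ} (hm : 1 ≤ m) (ω : Finset (Sym2 (ℤ × ℤ))) :
    ∃ v : ℤ × ℤ, nrm v = ((2 * m : ℕ):ℤ) ∧
      Reach (ω : Set (Sym2 (ℤ × ℤ))) (AS ((0:ℕ):ℤ) ((2 * m : ℕ):ℤ)) (Sph ((0:ℕ):ℤ)) (cc 0 (2 * m) ω)
        (v, false) := by
  obtain ⟨k, hk⟩ := ex_nonempty hm (ω : Set (Sym2 (ℤ × ℤ)))
  have := Nat.sInf_mem (s := {k | ∃ v : ℤ × ℤ, nrm v = ((2 * m : ℕ):ℤ) ∧
    Reach (ω : Set (Sym2 (ℤ × ℤ))) (AS ((0:ℕ):ℤ) ((2 * m : ℕ):ℤ)) (Sph ((0:ℕ):ℤ)) k (v, false)}) ⟨k, hk⟩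
  exact this

theorem ex_cc_le {m k : ℕ} {ω : Finset (Sym2 (ℤ × ℤ))} {v : ℤ × ℤ} (hv : nrm v = ((2 * m : ℕ):ℤ))
    (h : Reach (ω : Set (Sym2 (ℤ × ℤ))) (AS ((0:ℕ):ℤ) ((2 * m : ℕ):ℤ)) (Sph ((0:ℕ):ℤ)) k (v, false)) :
    cc 0 (2 * m) ω ≤ k := Nat.sInf_le ⟨v, hv, h⟩

theorem ex_cc_local {m n N j : ℕ} (hm1 : 1 ≤ m) (hm : 4 * m < n) (hN : 2 * n ≤ N)
    {ω ω' : Finset (Sym2 (ℤ × ℤ))} (hω : ω ⊆ cylE n (-(N:ℤ)) N)
    (hω' : ω' ⊆ cylE n (-(N:ℤ)) N) (h : ω ∩ TT n N (VB n N j ω) = ω' ∩ TT n N (VB n N j ω))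
    (hj : cc 0 (2 * m) (pw n (QB (2 * m)) ω) ≤ j) :
    cc 0 (2 * m) (pw n (QB (2 * m)) ω') = cc 0 (2 * m) (pw n (QB (2 * m)) ω) := by
  set d := cc 0 (2 * m) (pw n (QB (2 * m)) ω) with hd
  have key : ∀ {k : ℕ} {p : Pt}, k ≤ d → (Reach (pw n (QB (2 * m)) ω : Set (Sym2 (ℤ × ℤ)))
      (AS ((0:ℕ):ℤ) ((2 * m : ℕ):ℤ)) (Sph ((0:ℕ):ℤ)) k p ↔
      Reach (pw n (QB (2 * m)) ω' : Set (Sym2 (ℤ × ℤ))) (AS ((0:ℕ):ℤ) ((2 * m : ℕ):ℤ)) (Sph ((0:ℕ):ℤ)) k p) := by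
    intro k p hk
    refine ex_local (j := d) ?_ hk
    intro u v huv ht
    have ht' : Tch (VB n N j ω) s(u, v) := by
      obtain ⟨a, b, hab, hc⟩ := ht
      refine ⟨a, b, hab, ?_⟩
      rcases hc with ⟨c, h1, h2⟩ | ⟨f, ⟨c, h1, h2⟩, h3, h4⟩
      · exact Or.inl ⟨c, h1.trans hj, ex_box hm hN h2⟩
      · exact Or.inr ⟨f, ⟨c, h1.trans hj, ex_box hm hN h2⟩, h3, h4⟩
    rw [mem_coe, mem_coe, mem_pw, mem_pw, ex_touch hω hω' h ht']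
  obtain ⟨v, hv, h1⟩ := ex_cc_mem hm1 (pw n (QB (2 * m)) ω)
  have h2 : cc 0 (2 * m) (pw n (QB (2 * m)) ω') ≤ d := ex_cc_le hv ((key le_rfl).1 h1)
  refine le_antisymm h2 ?_
  obtain ⟨v', hv', h3⟩ := ex_cc_mem hm1 (pw n (QB (2 * m)) ω')
  exact ex_cc_le hv' ((key h2).2 h3)

end H82Nest
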