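import Pool.Agent.Helper12.Nest.Explore

/-! MODULE (D) of the nesting theorem: exploration on the cylinder, part 2. -/

set_option warn.classDefReducibility false

namespace H82Nest
open Finset H47Perc Cyl H92Link
open Pool.Agent.Helper69.RSW (P P_mono P_congr Dep Up harris P_nonneg P_indep P_or_le P_le_one)

/-! ### the arm -/

theorem ex_side {T : Finset (Sym2 (ℤ × ℤ))} {g : ℤ × ℤ}
    (h : ∀ u v, Cor u g → Cor v g → lattice.Adj u v → s(u, v) ∈ T) {u v : ℤ × ℤ} (hu : Cor u g)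
    (hv : Cor v g) : Joined T u v := by
  have h1 : ∀ a b : ℤ × ℤ, Cor a g → Cor b g → (a.1 = b.1 ∨ a.2 = b.2) → Joined T a b := by
    intro a b ha hb hab
    by_cases he : a = b
    · rw [he]; exact joined_refl _ _
    · apply joined_edge
      apply h a b ha hb
      obtain ⟨a1, a2⟩ := a
      obtain ⟨b1, b2⟩ := b
      obtain ⟨ha1, ha2⟩ := ha
      obtain ⟨hb1, hb2⟩ := hb
      simp only at ha1 ha2 hb1 hb2 hab
      have he' : ¬ (a1 = b1 ∧ a2 = b2) := fun h => he (by rw [h.1, h.2])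
      rcases hab with h2 | h2
      · left
        refine ⟨h2, ?_⟩
        simp only
        have : a2 - b2 = 1 ∨ a2 - b2 = -1 := by omega
        rcases this with h3 | h3 <;> rw [h3] <;> simp
      · right
        refine ⟨h2, ?_⟩
        simp only
        have : a1 - b1 = 1 ∨ a1 - b1 = -1 := by omega
        rcases this with h3 | h3 <;> rw [h3] <;> simp
  have h2 : Cor (v.1, u.2) g := ⟨hv.1, hu.2⟩
  exact joined_trans (h1 u (v.1, u.2) hu h2 (Or.inr rfl)) (h1 (v.1, u.2) v h2 hv (Or.inl rfl))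

theorem ex_rep_mem {n N : ℕ} (hn : 1 ≤ n) {u v : ℤ × ℤ} (huv : lattice.Adj u v)
    (h1 : -(N:ℤ) ≤ hm s(u, v)) (h2 : hm s(u, v) < N) : rep n s(u, v) ∈ cylE n (-(N:ℤ)) N := by
  have hn0 : (0:ℤ) < n := by omega
  rw [mem_cylE, edge_rep, xm_rep, hm_rep]
  exact ⟨by rw [SimpleGraph.mem_edgeSet]; exact huv, Int.emod_nonneg _ hn0.ne', Int.emod_lt_of_pos _ hn0, h1, h2⟩

theorem ex_arm {m n N j : ℕ} (hm1 : 1 ≤ m) (hm : 4 * m < n) (hN : 2 * n ≤ N)
    {ω : Finset (Sym2 (ℤ × ℤ))} (hj : cc 0 (2 * m) (pw n (QB (2 * m)) ω) ≤ j) :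
    Arm (box (-2 * (m:ℤ)) (2 * m) (-2 * m) (2 * m)) (0, 0) (2 * m)
      (pw n (box (-2 * (m:ℤ)) (2 * m) (-2 * m) (2 * m))
        (ω ∪ (TT n N (VB n N j ω) ∩ cylE n (-(N:ℤ)) N))) := by
  classical
  set ω' := ω ∪ (TT n N (VB n N j ω) ∩ cylE n (-(N:ℤ)) N) with hω'
  have eQ : box (-2 * (m:ℤ)) (2 * m) (-2 * m) (2 * m) = QB (2 * m) := by
    unfold QB
    push_cast
    rw [show -2 * (m:ℤ) = -(2 * m) by ring]
  rw [eQ]
  have hQ : ∀ z : ℤ × ℤ, nrm z ≤ ((2 * m : ℕ):ℤ) → z ∈ QB (2 * m) := by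
    intro z hz
    unfold QB
    rw [nrm_le, abs_le, abs_le] at hz
    rw [mem_box]
    exact ⟨hz.1.1, hz.1.2, hz.2.1, hz.2.2⟩
  set d := cc 0 (2 * m) (pw n (QB (2 * m)) ω) with hd
  -- the sides of the visited faces
  have hface : ∀ (k : ℕ) (g : ℤ × ℤ), k ≤ d → Reach (pw n (QB (2 * m)) ω : Set (Sym2 (ℤ × ℤ)))
      (AS ((0:ℕ):ℤ) ((2 * m : ℕ):ℤ)) (Sph ((0:ℕ):ℤ)) k (g, true) → ∀ u v, Cor u g → Cor v g →
      Joined (pw n (QB (2 * m)) ω') u v := by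
    intro k g hk hr u v hu hv
    refine ex_side ?_ hu hv
    intro a b ha hb hab
    have hg := (ex_mem hr).2 rfl
    have na := (hg a ha).2
    have nb := (hg b hb).2
    rw [mem_pw, mem_edgesIn]
    refine ⟨⟨hQ _ na, hQ _ nb, hab⟩, ?_⟩
    rw [hω', mem_union]
    right
    have h1 : rep n s(a, b) ∈ cylE n (-(N:ℤ)) N := by
      rw [nrm_le, abs_le, abs_le] at na nb
      push_cast at na nb
      apply ex_rep_mem (by omega) hab
      · rw [hm_mk]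
        exact le_min (by omega) (by omega)
      · rw [hm_mk]
        exact lt_of_le_of_lt (min_le_left _ _) (by omega)
    rw [mem_inter]
    refine ⟨ex_TT_mem h1 ⟨a, b, rfl, Or.inr ⟨g, ⟨k, hk.trans hj, ex_box hm hN hr⟩, ha, hb⟩⟩, h1⟩
  have key : ∀ {k : ℕ} {p : Pt}, Reach (pw n (QB (2 * m)) ω : Set (Sym2 (ℤ × ℤ)))
      (AS ((0:ℕ):ℤ) ((2 * m : ℕ):ℤ)) (Sph ((0:ℕ):ℤ)) k p → k ≤ d →
      (p.2 = false → Joined (pw n (QB (2 * m)) ω') (0, 0) p.1) ∧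
      (p.2 = true → ∀ u, Cor u p.1 → Joined (pw n (QB (2 * m)) ω') (0, 0) u) := by
    intro k p hr
    induction hr with
    | @start p h1 h2 =>
      intro _
      obtain ⟨z, b⟩ := p
      obtain ⟨h3, h4⟩ := h1
      simp only at h3 h4
      have h5 : nrm z ≤ 0 := by rw [h4]; simp
      rw [nrm_le, abs_nonpos_iff, abs_nonpos_iff] at h5
      have h6 : z = (0, 0) := Prod.ext h5.1 h5.2
      refine ⟨fun _ => ?_, fun h => ?_⟩
      · rw [h6]; exact joined_refl _ _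
      · rw [h3] at h; simp at h
    | @opn k u v h1 h2 h3 h4 ih =>
      intro hk
      refine ⟨fun _ => ?_, fun h => absurd h (by simp)⟩
      refine joined_trans ((ih hk).1 rfl) (joined_edge ?_)
      rw [mem_coe] at h3
      exact pw_mono n _ (by rw [hω']; exact subset_union_left) h3
    | @cls k f g u v h1 h2 h3 h4 h5 h6 h7 h8 ih =>
      intro hk
      refine ⟨fun h => absurd h (by simp), fun _ w hw => ?_⟩
      exact joined_trans ((ih hk).2 rfl u h4) (hface k g hk (Reach.cls h1 h2 h3 h4 h5 h6 h7 h8) u w h6 hw)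
    | @dn k u f h1 h2 h3 ih =>
      intro hk
      refine ⟨fun h => absurd h (by simp), fun _ w hw => ?_⟩
      exact joined_trans ((ih (by omega)).1 rfl) (hface (k + 1) f hk (Reach.dn h1 h2 h3) u w h2 hw)
    | @up k u f h1 h2 h3 ih =>
      intro hk
      exact ⟨fun _ => (ih (by omega)).2 rfl u h2, fun h => absurd h (by simp)⟩
  obtain ⟨v, hv, h1⟩ := ex_cc_mem hm1 (pw n (QB (2 * m)) ω)
  refine ⟨v, ?_, ?_⟩
  · unfold AtDist
    unfold nrm at hv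
    rw [sub_zero, sub_zero]
    push_cast at hv
    rcases max_choice |v.1| |v.2| with h | h
    · left; rw [h] at hv; exact hv
    · right; rw [h] at hv; exact hv
  · have e2 : QB (2 * m) ∩ ball (0, 0) (2 * m) = QB (2 * m) := by
      rw [ball_zero_box]
      unfold QB
      push_cast
      rw [inter_self]
    rw [e2, inter_eq_left.2 (pw_sub _ _ _)]
    exact (key h1 le_rfl).1 rfl

/-! ### the walk -/

theorem ex_hm_cases {u w : ℤ × ℤ} (h : lattice.Adj u w) :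
    (u.1 + u.2 = hm s(u, w) ∧ w.1 + w.2 = hm s(u, w) + 1 ∧ Cor u u ∧ Cor w u) ∨
    (w.1 + w.2 = hm s(u, w) ∧ u.1 + u.2 = hm s(u, w) + 1 ∧ Cor u w ∧ Cor w w) := by
  rw [hm_mk]
  unfold Cor
  rcases h with ⟨h1, h2⟩ | ⟨h1, h2⟩
  · rw [abs_eq (by norm_num)] at h2
    rcases h2 with h3 | h3
    · right
      refine ⟨?_, ?_, ⟨?_, ?_⟩, ⟨?_, ?_⟩⟩ <;> omega
    · left
      refine ⟨?_, ?_, ⟨?_, ?_⟩, ⟨?_, ?_⟩⟩ <;> omega
  · rw [abs_eq (by norm_num)] at h2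
    rcases h2 with h3 | h3
    · right
      refine ⟨?_, ?_, ⟨?_, ?_⟩, ⟨?_, ?_⟩⟩ <;> omega
    · left
      refine ⟨?_, ?_, ⟨?_, ?_⟩, ⟨?_, ?_⟩⟩ <;> omega

/-- an edge of the strip touching the ball has its end points in the larger ball -/
theorem ex_touch_ball {n N j : ℕ} {ω : Finset (Sym2 (ℤ × ℤ))} {u w : ℤ × ℤ} (huw : lattice.Adj u w)
    (h1 : -(N:ℤ) ≤ hm s(u, w)) (h2 : hm s(u, w) < N) (ht : Tch (VB n N j ω) s(u, w)) :
    (u, false) ∈ VB n N (j + 2) ω ∧ (w, false) ∈ VB n N (j + 2) ω := by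
  -- the two vertices and a face are in the strip
  have hS : (u, false) ∈ SS ((N:ℤ) + 1) ∧ (w, false) ∈ SS ((N:ℤ) + 1) := by
    unfold SS
    simp only [Set.mem_ofPred_eq]
    rcases ex_hm_cases huw with h | h
    · exact ⟨⟨fun _ => by omega, fun h => absurd h (by simp)⟩, ⟨fun _ => by omega, fun h => absurd h (by simp)⟩⟩
    · exact ⟨⟨fun _ => by omega, fun h => absurd h (by simp)⟩, ⟨fun _ => by omega, fun h => absurd h (by simp)⟩⟩
  have hF : ∃ g : ℤ × ℤ, (g, true) ∈ SS ((N:ℤ) + 1) ∧ Cor u g ∧ Cor w g := by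
    unfold SS
    simp only [Set.mem_ofPred_eq]
    rcases ex_hm_cases huw with h | h
    · exact ⟨u, ⟨fun h => absurd h (by simp), fun _ => by omega⟩, h.2.2.1, h.2.2.2⟩
    · exact ⟨w, ⟨fun h => absurd h (by simp), fun _ => by omega⟩, h.2.2.1, h.2.2.2⟩
  -- symmetric formulation
  have key : ∀ a b : ℤ × ℤ, (a, false) ∈ SS ((N:ℤ) + 1) → (b, false) ∈ SS ((N:ℤ) + 1) →
      (∃ g : ℤ × ℤ, (g, true) ∈ SS ((N:ℤ) + 1) ∧ Cor a g ∧ Cor b g) →
      ((a, false) ∈ VB n N j ω ∨ ∃ f, (f, true) ∈ VB n N j ω ∧ Cor a f ∧ Cor b f) →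
      (a, false) ∈ VB n N (j + 2) ω ∧ (b, false) ∈ VB n N (j + 2) ω := by
    rintro a b ha hb ⟨g, hg, hag, hbg⟩ hc
    rcases hc with ⟨k, hk, hr⟩ | ⟨f, ⟨k, hk, hr⟩, hf1, hf2⟩
    · refine ⟨⟨k, by omega, hr⟩, ⟨k + 1 + 1, by omega, ?_⟩⟩
      exact Reach.up (Reach.dn hr hag hg) hbg hb
    · exact ⟨⟨k + 1, by omega, Reach.up hr hf1 ha⟩, ⟨k + 1, by omega, Reach.up hr hf2 hb⟩⟩
  obtain ⟨a, b, hab, hc⟩ := ht
  rw [Sym2.eq_iff] at hab
  rcases hab with ⟨rfl, rfl⟩ | ⟨rfl, rfl⟩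
  · exact key _ _ hS.1 hS.2 hF hc
  · obtain ⟨g, h3, h4, h5⟩ := hF
    have := key _ _ hS.2 hS.1 ⟨g, h3, h5, h4⟩ hc
    exact ⟨this.2, this.1⟩

theorem ex_walk {n N j : ℕ} (hn : 1 ≤ n) {ω : Finset (Sym2 (ℤ × ℤ))} (hω : ω ⊆ cylE n (-(N:ℤ)) N)
    {u v : ℤ × ℤ} (p : (PG n (ω ∪ (TT n N (VB n N j ω) ∩ cylE n (-(N:ℤ)) N))).Walk u v)
    (hu : (u, false) ∈ VB n N (j + 2) ω) (hv : (v, false) ∈ VO n N (j + 2) ω) :
    ∃ z : Pt, z ∈ VB n N (j + 2) ω ∧ z ∈ VO n N (j + 2) ω := by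
  classical
  induction p with
  | nil => exact ⟨_, hu, hv⟩
  | @cons a b c hab p ih =>
    rw [PG_adj] at hab
    obtain ⟨hadj, hrep⟩ := hab
    -- heights
    have hF : rep n s(a, b) ∈ cylE n (-(N:ℤ)) N := by
      rw [mem_union] at hrep
      rcases hrep with h | h
      · exact hω h
      · exact (mem_inter.1 h).2
    have hh := mem_cylE.1 hF
    rw [hm_rep] at hh
    have h1 : -(N:ℤ) ≤ hm s(a, b) := hh.2.2.2.1
    have h2 : hm s(a, b) < N := hh.2.2.2.2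
    rw [mem_union] at hrep
    rcases hrep with h | h
    · -- open edge
      apply ih ?_ hv
      obtain ⟨k, hk, hr⟩ := hu
      refine ⟨k, hk, Reach.opn hr hadj ⟨by rw [SimpleGraph.mem_edgeSet]; exact hadj, h⟩ ?_⟩
      unfold SS
      simp only [Set.mem_ofPred_eq]
      rcases ex_hm_cases hadj with h | h
      · exact ⟨fun _ => by omega, fun h => absurd h (by simp)⟩
      · exact ⟨fun _ => by omega, fun h => absurd h (by simp)⟩
    · -- touching edge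
      rw [mem_inter] at h
      have h3 := h.1
      unfold TT at h3
      rw [mem_filter] at h3
      obtain ⟨k, hk⟩ := h3.2
      unfold rep at hk
      rw [emb_per_per] at hk
      set l := k + -(xm s(a, b) / (n:ℤ)) with hl
      rw [emb_mk] at hk
      have hadj' : lattice.Adj (per n l a) (per n l b) := (per_iso n l a b).2 hadj
      have hhm : hm s(per n l a, per n l b) = hm s(a, b) := by
        rw [← emb_mk, hm_per]
      have h4 := ex_touch_ball (n := n) (N := N) hadj' (by rw [hhm]; exact h1) (by rw [hhm]; exact h2) hk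
      rcases Int.even_or_odd' (-l) with ⟨c', hc' | hc'⟩
      · -- even: both end points in the even ball
        apply ih ?_ hv
        have h5 := ex_VB_even hn c' h4.2
        rw [per_per, ← hc', neg_add_cancel, per_zero] at h5
        exact h5
      · -- odd: `a` is in both balls
        have h5 := ex_VB_odd hn c' h4.1
        rw [per_per, ← hc', neg_add_cancel, per_zero] at h5
        exact ⟨(a, false), hu, h5⟩

/-! ### the increasing event -/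

/-- circuit, horizontal and vertical crossing -/
def Gv (m n : ℕ) (ω : Finset (Sym2 (ℤ × ℤ))) : Prop :=
  Circ4 m (pw n (box (-2 * (m:ℤ)) (2 * m) (-2 * m) (2 * m)) ω) ∧
    (LR (-2 * m) (n + 2 * m) (-m) m (pw n (box (-2 * (m:ℤ)) (n + 2 * m) (-m) m) ω) ∧
      BT (n - m) (n + m) (-n - 2 * m) (2 * m) (pw n (box ((n:ℤ) - m) (n + m) (-n - 2 * m) (2 * m)) ω))

theorem ex_Gv_up (m n : ℕ) : Up (Gv m n) :=
  (up_pw (circ4_up (m:ℤ))).and ((up_pw (up_LR (-2 * m) (n + 2 * m) (-m) m)).and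
    (up_pw (up_BT (n - m) (n + m) (-n - 2 * m) (2 * m))))

theorem ex_Gv_ge : ∃ c : ℝ, 0 < c ∧ ∀ m n N : ℕ, 1 ≤ m → 4 * m < n → n ≤ 16 * m → 2 * n ≤ N →
    c ≤ P (cylE n (-(N:ℤ)) N) (Gv m n) := by
  obtain ⟨c, hc, h6⟩ := H46.rsw_pLR 6
  obtain ⟨c', hc', h30⟩ := H46.rsw_pLR 30
  have h6' : ∀ n : ℕ, 1 ≤ n → c ≤ pLR (6 * n) n := fun n hn => by exact_mod_cast h6 n hn
  have h30' : ∀ n : ℕ, 1 ≤ n → c' ≤ pLR (30 * n) n := fun n hn => by exact_mod_cast h30 n hn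
  refine ⟨c ^ 4 * (c' * c'), by positivity, ?_⟩
  intro m n M hm1 hnm hnm2 hM
  have hn1 : 1 ≤ n := by omega
  set F := cylE n (-(M:ℤ)) M with hF
  set Q := box (-2 * (m:ℤ)) (2 * m) (-2 * m) (2 * m) with hQ
  set H := box (-2 * (m:ℤ)) (n + 2 * m) (-m) m with hHdef
  set V := box ((n:ℤ) - m) (n + m) (-n - 2 * m) (2 * m) with hVdef
  have pC : c ^ 4 ≤ P F (fun ω => Circ4 m (pw n Q ω)) := by
    rw [hF, P_pw hn1 (emb_box_h (by omega)) (a := -(M:ℤ)) (b := M)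
      (fun z hz => by rw [mem_box] at hz; omega) (Circ4 m)]
    exact circ4_ge hc h6' hm1 subset_rfl
  have pH : c' ≤ P F (fun ω => LR (-2 * m) (n + 2 * m) (-m) m (pw n H ω)) := by
    rw [hF, P_pw hn1 (emb_box_h (by omega)) (a := -(M:ℤ)) (b := M)
      (fun z hz => by rw [mem_box] at hz; omega) (LR (-2 * m) (n + 2 * m) (-m) m),
      perc_LR]
    refine (h30' m hm1).trans ((pLR_anti (by omega) (by omega) _).trans (pLR_height _ (by omega)))
  have pV : c' ≤ P F (fun ω => BT (n - m) (n + m) (-n - 2 * m) (2 * m) (pw n V ω)) := by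
    rw [hF, P_pw hn1 (emb_box_v (by omega)) (a := -(M:ℤ)) (b := M)
      (fun z hz => by rw [mem_box] at hz; omega)
      (BT (n - m) (n + m) (-n - 2 * m) (2 * m)), perc_BT]
    refine (h30' m hm1).trans ((pLR_anti (by omega) (by omega) _).trans (pLR_height _ (by omega)))
  have s2 := harris F (up_pw (n := n) (S := H) (up_LR (-2 * m) (n + 2 * m) (-m) m))
    (up_pw (n := n) (S := V) (up_BT (n - m) (n + m) (-n - 2 * m) (2 * m)))
  have s3 := harris F (up_pw (n := n) (S := Q) (circ4_up (m:ℤ)))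
    ((up_pw (n := n) (S := H) (up_LR (-2 * m) (n + 2 * m) (-m) m)).and
    (up_pw (n := n) (S := V) (up_BT (n - m) (n + m) (-n - 2 * m) (2 * m))))
  have s4 : c' * c' ≤ P F (fun ω => LR (-2 * m) (n + 2 * m) (-m) m (pw n H ω) ∧
      BT (n - m) (n + m) (-n - 2 * m) (2 * m) (pw n V ω)) :=
    (mul_le_mul pH pV hc'.le (P_nonneg _ _)).trans s2
  exact (mul_le_mul pC s4 (by positivity) (P_nonneg _ _)).trans s3

/-! ### the exploration -/

/-- the two balls meet -/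
def Mt (n N J : ℕ) (ω : Finset (Sym2 (ℤ × ℤ))) : Prop :=
  ∃ p, ∃ a ≤ J, ∃ b ≤ J, Reach (lft n ω) (SS (N + 1)) (Lf n 0) a p ∧
        Reach (lft n ω) (SS (N + 1)) (Lf n 1) b p

theorem ex_Mt_iff {n N J : ℕ} {ω : Finset (Sym2 (ℤ × ℤ))} :
    Mt n N J ω ↔ ∃ z : Pt, z ∈ VB n N J ω ∧ z ∈ VO n N J ω := by
  constructor
  · rintro ⟨p, a, ha, b, hb, h1, h2⟩
    exact ⟨p, ⟨a, ha, h1⟩, ⟨b, hb, h2⟩⟩
  · rintro ⟨p, ⟨a, ha, h1⟩, ⟨b, hb, h2⟩⟩
    exact ⟨p, a, ha, b, hb, h1, h2⟩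

theorem ex_Mt_iff' {n N J : ℕ} (hn : 1 ≤ n) {ω : Finset (Sym2 (ℤ × ℤ))} :
    Mt n N J ω ↔ ∃ z : Pt, z ∈ VB n N J ω ∧ (per n (-1) z.1, z.2) ∈ VB n N J ω := by
  rw [ex_Mt_iff]
  constructor
  · rintro ⟨z, h1, h2⟩
    exact ⟨z, h1, (ex_VO_iff (z := z.1) (b := z.2) hn).1 h2⟩
  · rintro ⟨z, h1, h2⟩
    exact ⟨z, h1, (ex_VO_iff (z := z.1) (b := z.2) hn).2 h2⟩

theorem ex_Mt_mono {n N J J' : ℕ} (h : J ≤ J') {ω : Finset (Sym2 (ℤ × ℤ))} (hm : Mt n N J ω) :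
    Mt n N J' ω := by
  obtain ⟨p, a, ha, b, hb, h1, h2⟩ := hm
  exact ⟨p, a, ha.trans h, b, hb.trans h, h1, h2⟩

theorem ex_key {m n N j : ℕ} (hm1 : 1 ≤ m) (hm : 4 * m < n) (hN : 2 * n ≤ N)
    {ω : Finset (Sym2 (ℤ × ℤ))} (hω : ω ⊆ cylE n (-(N:ℤ)) N)
    (hj : cc 0 (2 * m) (pw n (QB (2 * m)) ω) ≤ j)
    (hG : Gv m n (ω ∪ (TT n N (VB n N j ω) ∩ cylE n (-(N:ℤ)) N))) : Mt n N (j + 2) ω := by
  have hn : 1 ≤ n := by omega
  obtain ⟨g2, g3, g4⟩ := hG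
  have h1 := wind_det hm1 hm (ex_arm hm1 hm hN hj) g2 g3 g4
  obtain ⟨p⟩ := h1
  rw [ex_Mt_iff]
  have h0 : (((0, 0) : ℤ × ℤ), false) ∈ SS ((N:ℤ) + 1) := by
    unfold SS
    simp only [Set.mem_ofPred_eq]
    exact ⟨fun _ => by omega, fun h => absurd h (by simp)⟩
  have h1 : (((n:ℤ), -(n:ℤ)), false) ∈ SS ((N:ℤ) + 1) := by
    unfold SS
    simp only [Set.mem_ofPred_eq]
    exact ⟨fun _ => by omega, fun h => absurd h (by simp)⟩
  refine ex_walk hn hω p ⟨0, by omega, Reach.start ⟨0, ?_⟩ h0⟩ ⟨0, by omega, Reach.start ⟨0, ?_⟩ h1⟩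
  · rw [show (2 * 0 + 0 : ℤ) = 0 by ring, per_zero]
  · rw [per_apply]
    simp

open Classical in
/-- explored data -/
noncomputable def Xd (m n N d j : ℕ) (ω : Finset (Sym2 (ℤ × ℤ))) : Option (Set Pt) :=
  if cc 0 (2 * m) (pw n (QB (2 * m)) ω) = d then some (VB n N j ω) else none

/-- explored edges -/
noncomputable def Td (n N : ℕ) : Option (Set Pt) → Finset (Sym2 (ℤ × ℤ))
  | none => cylE n (-(N:ℤ)) N
  | some A => TT n N A

/-- no meeting -/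
def Yd (n : ℕ) : Option (Set Pt) → Prop
  | none => False
  | some A => ¬ ∃ z : Pt, z ∈ A ∧ (per n (-1) z.1, z.2) ∈ A

theorem ex_Yd {m n N d j : ℕ} (hn : 1 ≤ n) {ω : Finset (Sym2 (ℤ × ℤ))} :
    Yd n (Xd m n N d j ω) ↔ cc 0 (2 * m) (pw n (QB (2 * m)) ω) = d ∧ ¬ Mt n N j ω := by
  unfold Xd
  split_ifs with h
  · rw [ex_Mt_iff' hn]
    exact ⟨fun h' => ⟨h, h'⟩, fun h' => h'.2⟩
  · exact ⟨fun h' => h'.elim, fun h' => h h'.1⟩

theorem ex_step {m n N d j : ℕ} (hm1 : 1 ≤ m) (hm : 4 * m < n) (hN : 2 * n ≤ N) (hdj : d ≤ j) :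
    P (cylE n (-(N:ℤ)) N) (fun ω => cc 0 (2 * m) (pw n (QB (2 * m)) ω) = d ∧ ¬ Mt n N (j + 2) ω) ≤
      (1 - P (cylE n (-(N:ℤ)) N) (Gv m n)) *
        P (cylE n (-(N:ℤ)) N) (fun ω => cc 0 (2 * m) (pw n (QB (2 * m)) ω) = d ∧ ¬ Mt n N j ω) := by
  have hn : 1 ≤ n := by omega
  have h1 := expl_gen (cylE n (-(N:ℤ)) N) (Xd m n N d j) (Td n N) (G := Gv m n)
    (Bad := fun ω => ¬ Mt n N (j + 2) ω) (Y := Yd n) ?_ (ex_Gv_up m n) ?_
  · have e1 : P (cylE n (-(N:ℤ)) N) (fun ω => Yd n (Xd m n N d j ω)) =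
        P (cylE n (-(N:ℤ)) N) (fun ω => cc 0 (2 * m) (pw n (QB (2 * m)) ω) = d ∧ ¬ Mt n N j ω) :=
      P_congr fun ω _ => ex_Yd hn
    rw [e1] at h1
    refine le_trans (P_mono ?_) h1
    rintro ω _ ⟨h2, h3⟩
    refine ⟨(ex_Yd hn).2 ⟨h2, fun h => h3 (ex_Mt_mono (by omega) h)⟩, h3⟩
  · intro ω ω' hω hω' h
    unfold Xd at h ⊢
    by_cases hc : cc 0 (2 * m) (pw n (QB (2 * m)) ω) = d
    · simp only [if_pos hc] at h ⊢
      have h2 := ex_cc_local hm1 hm hN hω hω' h (by rw [hc]; exact hdj)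
      rw [if_pos (by rw [h2]; exact hc), ex_VB_local hω hω' h]
    · simp only [if_neg hc] at h ⊢
      have h2 : ω = ω' := by
        have h3 : ω ∩ cylE n (-(N:ℤ)) N = ω' ∩ cylE n (-(N:ℤ)) N := h
        rwa [inter_eq_left.2 hω, inter_eq_left.2 hω'] at h3
      rw [← h2, if_neg hc]
  · intro ω hω hY hB hG
    have hY' := (ex_Yd hn).1 hY
    apply hB
    have hX : Xd m n N d j ω = some (VB n N j ω) := by
      unfold Xd
      rw [if_pos hY'.1]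
    rw [hX] at hG
    exact ex_key hm1 hm hN hω (by rw [hY'.1]; exact hdj) hG

/-- (D) exploration on the cylinder: exponential tail of the difference -/
theorem explore : ∃ ρ : ℝ, 0 < ρ ∧ ρ < 1 ∧ ∀ m n N d i : ℕ, 1 ≤ m → 4 * m < n → n ≤ 16 * m →
    2 * n ≤ N →
    P (cylE n (-(N:ℤ)) N) (fun ω => cc 0 (2 * m) (pw n (QB (2 * m)) ω) = d ∧
      ¬ ∃ p, ∃ a ≤ d + 2 * i, ∃ b ≤ d + 2 * i, Reach (lft n ω) (SS (N + 1)) (Lf n 0) a p ∧
        Reach (lft n ω) (SS (N + 1)) (Lf n 1) b p) ≤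
    ρ ^ i * P (cylE n (-(N:ℤ)) N) (fun ω => cc 0 (2 * m) (pw n (QB (2 * m)) ω) = d) := by
  obtain ⟨c, hc, hG⟩ := ex_Gv_ge
  refine ⟨max (1 - c) (1 / 2), lt_of_lt_of_le (by norm_num) (le_max_right _ _),
    max_lt (by linarith) (by norm_num), ?_⟩
  intro m n N d i hm1 hm hm2 hN
  have key : ∀ i : ℕ, P (cylE n (-(N:ℤ)) N) (fun ω => cc 0 (2 * m) (pw n (QB (2 * m)) ω) = d ∧
      ¬ Mt n N (d + 2 * i) ω) ≤ max (1 - c) (1 / 2) ^ i *
        P (cylE n (-(N:ℤ)) N) (fun ω => cc 0 (2 * m) (pw n (QB (2 * m)) ω) = d) := by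
    intro i
    induction i with
    | zero =>
      rw [pow_zero, one_mul]
      exact P_mono fun ω _ h => h.1
    | succ i ih =>
      have h1 := ex_step (d := d) (j := d + 2 * i) hm1 hm hN (by omega)
      rw [show d + 2 * (i + 1) = d + 2 * i + 2 by ring]
      refine h1.trans ?_
      have h2 : 1 - P (cylE n (-(N:ℤ)) N) (Gv m n) ≤ max (1 - c) (1 / 2) :=
        le_trans (by linarith [hG m n N hm1 hm hm2 hN]) (le_max_left _ _)
      have h3 : 0 ≤ max (1 - c) (1 / 2) := le_trans (by norm_num) (le_max_right _ _)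
      calc _ ≤ max (1 - c) (1 / 2) * P (cylE n (-(N:ℤ)) N)
            (fun ω => cc 0 (2 * m) (pw n (QB (2 * m)) ω) = d ∧ ¬ Mt n N (d + 2 * i) ω) :=
            mul_le_mul_of_nonneg_right h2 (P_nonneg _ _)
        _ ≤ max (1 - c) (1 / 2) * (max (1 - c) (1 / 2) ^ i *
            P (cylE n (-(N:ℤ)) N) (fun ω => cc 0 (2 * m) (pw n (QB (2 * m)) ω) = d)) :=
            mul_le_mul_of_nonneg_left ih h3
        _ = _ := by ring
  exact key i

end H82Nest
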